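import Pool.Agent.H72.EQQ.Targets
import Pool.Agent.H12.EQ.LIM

/-!
Row LMQ of the board eqq: equidistribution with a power saving.
-/

set_option autoImplicit false

open Pool.Agent.H38.AE.Statement Pool.Agent.H38.AT MeasureTheory Filter Pool.Agent.H71.EQ
open Pool.Agent.H72.EQQ

namespace Pool.Agent.H12.EQQ

theorem floor_half (t : ℝ) (ht : 1 ≤ t) :
    1 ≤ ⌊t⌋₊ ∧ t / 2 ≤ (⌊t⌋₊ : ℝ) ∧ (⌊t⌋₊ : ℝ) ≤ t := by
  have h1 : 1 ≤ ⌊t⌋₊ := Nat.le_floor (by simpa using ht)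
  have h2 : (⌊t⌋₊ : ℝ) ≤ t := Nat.floor_le (by linarith)
  have h3 := Nat.lt_floor_add_one t
  have h4 : (1 : ℝ) ≤ (⌊t⌋₊ : ℝ) := by exact_mod_cast h1
  exact ⟨h1, by linarith, h2⟩

theorem floor_pow (X η c : ℝ) (hX : 1 ≤ X) (hη : 0 ≤ η) (hc : 0 ≤ c) :
    (⌊X ^ η⌋₊ : ℝ) ^ (-c) ≤ 2 ^ c * X ^ (-(η * c)) := by
  have hX0 : 0 < X := by linarith
  have ht : 1 ≤ X ^ η := Real.one_le_rpow hX hη
  obtain ⟨_, h2, _⟩ := floor_half _ ht
  have h3 : 0 < X ^ η / 2 := by positivity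
  refine (Real.rpow_le_rpow_of_nonpos h3 h2 (by linarith)).trans (le_of_eq ?_)
  rw [Real.div_rpow (by positivity) (by norm_num), ← Real.rpow_mul hX0.le,
    Real.rpow_neg (by norm_num : (0 : ℝ) ≤ 2), div_inv_eq_mul, mul_comm]
  congr 2
  ring

theorem lip_nonneg (k : ℕ) (f : (Fin (k + 1) → ℝ) → ℝ) (L : ℝ)
    (h : ∀ y z, |f y - f z| ≤ L * ‖y - z‖) : 0 ≤ L := by
  have h1 := (abs_nonneg _).trans (h (fun _ => 1) (fun _ => 0))
  have h2 : (0 : ℝ) < ‖(fun _ => 1 : Fin (k + 1) → ℝ) - (fun _ => 0)‖ := by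
    rw [norm_pos_iff]
    intro h3
    have h4 := congrFun h3 0
    simp at h4
  exact nonneg_of_mul_nonneg_left h1 h2

theorem lip_cont (k : ℕ) (f : (Fin (k + 1) → ℝ) → ℝ) (L : ℝ)
    (h : ∀ y z, |f y - f z| ≤ L * ‖y - z‖) : Continuous f := by
  have hL := lip_nonneg k f L h
  have h1 : LipschitzWith ⟨L, hL⟩ f := LipschitzWith.of_dist_le_mul fun y z => by
    rw [Real.dist_eq, dist_eq_norm]
    exact h y z
  exact h1.continuous

theorem lim_bound (h6 : T_VFN) (k : ℕ) (hk : 2 ≤ k) (c2 C2 : ℝ) (hC2 : 0 < C2)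
    (hR : ∀ (Y : ℕ) (κ lam B : ℝ) (f : (Fin (k + 1) → ℝ) → ℝ), 1 ≤ Y → 0 < κ → κ < 1 →
      1 ≤ lam → Continuous f → (∀ y, |f y| ≤ B) →
      |∑ E ∈ Finset.Icc 1 Y, wt (k + 1) E * (E : ℝ) ^ (1 - nu k) *
        (∫ z in Reg k E κ lam, f (arg E z)) - limitValue k f| ≤
        C2 * B * ((Y : ℝ) ^ (-c2) + κ ^ (1 / 2 : ℝ) + Y * lam ^ (-(1 / 2) : ℝ)))
    (f : (Fin (k + 1) → ℝ) → ℝ) (B : ℝ) (hf : Continuous f) (hB : ∀ y, |f y| ≤ B) :
    |limitValue k f| ≤ B * (3 * C2 + |wt (k + 1) 1| *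
      volume.real {z : Fin k → ℝ | PR z ≤ 1}) := by
  have hB0 : 0 ≤ B := (abs_nonneg _).trans (hB 0)
  have hV := (h6 k hk).1
  have e1 := hR 1 (1 / 2) 1 B f le_rfl (by norm_num) (by norm_num) le_rfl hf hB
  rw [Finset.Icc_self, Finset.sum_singleton, Nat.cast_one, Real.one_rpow, Real.one_rpow,
    Real.one_rpow, mul_one, one_mul] at e1
  have e2 : (1 / 2 : ℝ) ^ (1 / 2 : ℝ) ≤ 1 :=
    Real.rpow_le_one (by norm_num) (by norm_num) (by norm_num)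
  have e3 : C2 * B * (1 + (1 / 2 : ℝ) ^ (1 / 2 : ℝ) + 1) ≤ C2 * B * 3 :=
    mul_le_mul_of_nonneg_left (by linarith) (by positivity)
  have hsub : Reg k 1 (1 / 2) 1 ⊆ {z : Fin k → ℝ | PR z ≤ 1} := fun z hz => hz.2.1
  have hlt : volume (Reg k 1 (1 / 2) 1) < ⊤ := (measure_mono hsub).trans_lt hV
  have e4 : |∫ z in Reg k 1 (1 / 2) 1, f (arg 1 z)| ≤
      B * volume.real {z : Fin k → ℝ | PR z ≤ 1} := by
    have h7 := norm_setIntegral_le_of_norm_le_const (μ := volume) (f := fun z => f (arg 1 z))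
      (C := B) hlt (fun z _ => hB _)
    rw [Real.norm_eq_abs] at h7
    exact h7.trans (mul_le_mul_of_nonneg_left (measureReal_mono hsub hV.ne) hB0)
  have e5 : |wt (k + 1) 1 * ∫ z in Reg k 1 (1 / 2) 1, f (arg 1 z)| ≤
      |wt (k + 1) 1| * (B * volume.real {z : Fin k → ℝ | PR z ≤ 1}) := by
    rw [abs_mul]
    exact mul_le_mul_of_nonneg_left e4 (abs_nonneg _)
  have e6 := abs_sub_abs_le_abs_sub (limitValue k f)
    (wt (k + 1) 1 * ∫ z in Reg k 1 (1 / 2) 1, f (arg 1 z))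
  rw [abs_sub_comm] at e6
  have e7 : B * (3 * C2 + |wt (k + 1) 1| * volume.real {z : Fin k → ℝ | PR z ≤ 1}) =
      C2 * B * 3 + |wt (k + 1) 1| * (B * volume.real {z : Fin k → ℝ | PR z ≤ 1}) := by ring
  rw [e7]
  linarith

theorem lmq_core (h1 : T_FEQ) (h3 : T_RHQ) (h6 : T_VFN) (k : ℕ) (hk : 2 ≤ k)
    (ε ρ δ c C X₀ : ℝ) (hδ : 0 < δ) (hc : 0 < c) (hC : 0 < C) (hX₀ : 3 ≤ X₀)
    (hfin : ∀ X : ℝ, 3 ≤ X → (Tuples k ε ρ X).Finite ∧
      ((Tuples k ε ρ X).ncard : ℝ) ≤ C * X ^ (1 - nu k))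
    (hL : ∀ (X κ lam : ℝ) (Y : ℕ), X₀ ≤ X → X ^ (-δ) ≤ κ → κ < 1 → 1 ≤ lam → lam ≤ X →
      1 ≤ Y → (∀ E ∈ Finset.Icc 1 Y, SF k E κ lam X ⊆ Tuples k ε ρ X) ∧
      ((Tuples k ε ρ X \ ⋃ E ∈ Finset.Icc 1 Y, SF k E κ lam X).ncard : ℝ) ≤
        C * ((Y : ℝ) ^ (-c) + (Y : ℝ) ^ 6 * lam ^ (-(1 / 2) : ℝ) + κ ^ (1 / 2 : ℝ) +
          X ^ (-c)) * X ^ (1 - nu k)) :
    ∃ δ' C' : ℝ, 0 < δ' ∧ 0 < C' ∧ ∀ X : ℝ, 3 ≤ X →
      ∀ (f : (Fin (k + 1) → ℝ) → ℝ) (B L : ℝ), (∀ y, |f y| ≤ B) →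
      (∀ y z, |f y - f z| ≤ L * ‖y - z‖) →
      |X ^ (-(1 - nu k)) * ∑ᶠ x ∈ Tuples k ε ρ X, f (nrm x) - limitValue k f| ≤
        C' * (B + L) * X ^ (-δ') := by
  obtain ⟨C1, θ, a, hC1, hθ, hF⟩ := h1 k hk
  obtain ⟨c2, C2, hc2, hC2, hR⟩ := h3 k hk
  obtain ⟨η, hη0, hη1, hη2, hη3⟩ : ∃ η : ℝ, 0 < η ∧ 16 * η ≤ 1 ∧ 16 * η ≤ δ ∧
      η * (1 + 33 * (a : ℝ)) ≤ θ / 2 := by
    have ha : (0 : ℝ) < 2 * (1 + 33 * (a : ℝ)) := by positivity
    have m1 := min_le_left (1 / 16 : ℝ) (min (δ / 16) (θ / (2 * (1 + 33 * (a : ℝ)))))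
    have m2 := (min_le_right (1 / 16 : ℝ) (min (δ / 16) (θ / (2 * (1 + 33 * (a : ℝ)))))).trans
      (min_le_left _ _)
    have m3 := (min_le_right (1 / 16 : ℝ) (min (δ / 16) (θ / (2 * (1 + 33 * (a : ℝ)))))).trans
      (min_le_right _ _)
    refine ⟨min (1 / 16 : ℝ) (min (δ / 16) (θ / (2 * (1 + 33 * (a : ℝ))))),
      lt_min (by norm_num) (lt_min (by positivity) (by positivity)),
      by linarith, by linarith, ?_⟩
    rw [le_div_iff₀ ha] at m3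
    linarith
  obtain ⟨δ', d0, d1, d2, d3, d4, d5⟩ : ∃ δ' : ℝ, 0 < δ' ∧ δ' ≤ η * c ∧ δ' ≤ η ∧ δ' ≤ c ∧
      δ' ≤ θ / 2 ∧ δ' ≤ η * c2 :=
    ⟨min (min (η * c) η) (min c (min (θ / 2) (η * c2))),
      lt_min (lt_min (by positivity) hη0) (lt_min hc (lt_min (by positivity) (by positivity))),
      (min_le_left _ _).trans (min_le_left _ _), (min_le_left _ _).trans (min_le_right _ _),
      (min_le_right _ _).trans (min_le_left _ _),
      (min_le_right _ _).trans ((min_le_right _ _).trans (min_le_left _ _)),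
      (min_le_right _ _).trans ((min_le_right _ _).trans (min_le_right _ _))⟩
  set V := volume.real {z : Fin k → ℝ | PR z ≤ 1} with hV
  have hV0 : 0 ≤ V := measureReal_nonneg
  refine ⟨δ', C * (2 ^ c + 3) + C1 + C2 * (2 ^ c2 + 2) +
    (C + (3 * C2 + |wt (k + 1) 1| * V)) * X₀ ^ δ', d0, by positivity, ?_⟩
  intro X hX f B L hB hLip
  have hX1 : 1 ≤ X := by linarith
  have hX0 : 0 < X := by linarith
  have hB0 : 0 ≤ B := (abs_nonneg _).trans (hB 0)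
  have hL0 : 0 ≤ L := lip_nonneg k f L hLip
  have hf := lip_cont k f L hLip
  have hp : 0 < X ^ (-(1 - nu k)) := Real.rpow_pos_of_pos hX0 _
  have hpp : X ^ (-(1 - nu k)) * X ^ (1 - nu k) = 1 := by
    rw [← Real.rpow_add hX0, neg_add_cancel, Real.rpow_zero]
  have hpd : 0 < X ^ (-δ') := Real.rpow_pos_of_pos hX0 _
  have hlim := lim_bound h6 k hk c2 C2 hC2 hR f B hf hB
  rw [← hV] at hlim
  rcases lt_or_ge X X₀ with hsm | hbig
  · -- small `X`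
    have e1 := Pool.Agent.H12.EQ.sum_bound (fun x : Fin (k + 1) → ℤ => f (nrm x)) B
      (fun x => hB _) (Tuples k ε ρ X) (hfin X hX).1
    have e2 : |X ^ (-(1 - nu k)) * ∑ᶠ x ∈ Tuples k ε ρ X, f (nrm x)| ≤ B * C := by
      rw [abs_mul, abs_of_pos hp]
      calc X ^ (-(1 - nu k)) * |∑ᶠ x ∈ Tuples k ε ρ X, f (nrm x)|
          ≤ X ^ (-(1 - nu k)) * (B * (C * X ^ (1 - nu k))) :=
            mul_le_mul_of_nonneg_left (e1.trans
              (mul_le_mul_of_nonneg_left (hfin X hX).2 hB0)) hp.le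
        _ = B * C * (X ^ (-(1 - nu k)) * X ^ (1 - nu k)) := by ring
        _ = B * C := by rw [hpp, mul_one]
    have e3 : 1 ≤ X₀ ^ δ' * X ^ (-δ') := by
      have : X ^ δ' ≤ X₀ ^ δ' := Real.rpow_le_rpow hX0.le hsm.le d0.le
      have h7 : X ^ δ' * X ^ (-δ') = 1 := by
        rw [← Real.rpow_add hX0, add_neg_cancel, Real.rpow_zero]
      nlinarith
    set W := C + (3 * C2 + |wt (k + 1) 1| * V) with hW
    have hW0 : 0 ≤ W := by positivity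
    have e4 : |X ^ (-(1 - nu k)) * ∑ᶠ x ∈ Tuples k ε ρ X, f (nrm x) - limitValue k f| ≤
        B * W := by
      refine (abs_sub _ _).trans ?_
      rw [hW]
      linarith
    calc _ ≤ B * W := e4
      _ ≤ (B + L) * W * (X₀ ^ δ' * X ^ (-δ')) := by
          have h8 : B * W ≤ (B + L) * W := mul_le_mul_of_nonneg_right (by linarith) hW0
          have h9 : 0 ≤ (B + L) * W := by positivity
          nlinarith
      _ = W * X₀ ^ δ' * (B + L) * X ^ (-δ') := by ring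
      _ ≤ _ := by
          refine mul_le_mul_of_nonneg_right (mul_le_mul_of_nonneg_right ?_ (by positivity))
            hpd.le
          have : 0 ≤ C * (2 ^ c + 3) + C1 + C2 * (2 ^ c2 + 2) := by positivity
          linarith
  · -- large `X`
    have ht : 1 ≤ X ^ η := Real.one_le_rpow hX1 hη0.le
    obtain ⟨y1, y2, y3⟩ := floor_half _ ht
    obtain ⟨Y, hY⟩ : ∃ Y : ℕ, Y = ⌊X ^ η⌋₊ := ⟨_, rfl⟩
    rw [← hY] at y1 y2 y3
    have hY1 : (1 : ℝ) ≤ Y := by exact_mod_cast y1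
    have le_pw : ∀ a b : ℝ, a ≤ b → X ^ a ≤ X ^ b := fun a b h =>
      Real.rpow_le_rpow_of_exponent_le hX1 h
    have hlam1 : 1 ≤ X ^ (16 * η) := Real.one_le_rpow hX1 (by linarith)
    have hlamX : X ^ (16 * η) ≤ X := by
      have := le_pw (16 * η) 1 hη1
      rwa [Real.rpow_one] at this
    have hκ0 : 0 < X ^ (-(16 * η)) := Real.rpow_pos_of_pos hX0 _
    have hκ1 : X ^ (-(16 * η)) < 1 :=
      Real.rpow_lt_one_of_one_lt_of_neg (by linarith) (by linarith)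
    have hκδ : X ^ (-δ) ≤ X ^ (-(16 * η)) := le_pw _ _ (by linarith)
    have hcY : ∀ b : ℝ, 0 ≤ b → (Y : ℝ) ^ (-b) ≤ 2 ^ b * X ^ (-(η * b)) := fun b hb => by
      rw [hY]
      exact floor_pow X η b hX1 hη0.le hb
    have hlh : (X ^ (16 * η)) ^ (-(1 / 2) : ℝ) = X ^ (-(8 * η)) := by
      rw [← Real.rpow_mul hX0.le]
      congr 1
      ring
    have hκh : (X ^ (-(16 * η))) ^ (1 / 2 : ℝ) = X ^ (-(8 * η)) := by
      rw [← Real.rpow_mul hX0.le]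
      congr 1
      ring
    obtain ⟨l1, l2⟩ := hL X (X ^ (-(16 * η))) (X ^ (16 * η)) Y hbig hκδ hκ1 hlam1 hlamX y1
    have r1 := hR Y (X ^ (-(16 * η))) (X ^ (16 * η)) B f y1 hκ0 hκ1 hlam1 hf hB
    rw [hlh, hκh] at l2 r1
    -- the bounds for the error terms
    have b1 : (Y : ℝ) ^ (-c) ≤ 2 ^ c * X ^ (-δ') :=
      (hcY c hc.le).trans (mul_le_mul_of_nonneg_left (le_pw _ _ (by linarith)) (by positivity))
    have b2 : (Y : ℝ) ^ (-c2) ≤ 2 ^ c2 * X ^ (-δ') :=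
      (hcY c2 hc2.le).trans (mul_le_mul_of_nonneg_left (le_pw _ _ (by linarith)) (by positivity))
    have b3 : (Y : ℝ) ^ 6 * X ^ (-(8 * η)) ≤ X ^ (-δ') := by
      have h7 : (Y : ℝ) ^ 6 ≤ X ^ (η * 6) := by
        have h8 : (Y : ℝ) ^ 6 ≤ (X ^ η) ^ 6 := pow_le_pow_left₀ (by linarith) y3 6
        rwa [← Real.rpow_natCast (X ^ η) 6, ← Real.rpow_mul hX0.le, Nat.cast_ofNat] at h8
      calc (Y : ℝ) ^ 6 * X ^ (-(8 * η)) ≤ X ^ (η * 6) * X ^ (-(8 * η)) :=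
            mul_le_mul_of_nonneg_right h7 (Real.rpow_nonneg hX0.le _)
        _ = X ^ (η * 6 + -(8 * η)) := (Real.rpow_add hX0 _ _).symm
        _ ≤ X ^ (-δ') := le_pw _ _ (by linarith)
    have b4 : X ^ (-(8 * η)) ≤ X ^ (-δ') := le_pw _ _ (by linarith)
    have b5 : X ^ (-c) ≤ X ^ (-δ') := le_pw _ _ (by linarith)
    have b6 : (Y : ℝ) * X ^ (-(8 * η)) ≤ X ^ (-δ') := by
      calc (Y : ℝ) * X ^ (-(8 * η)) ≤ X ^ η * X ^ (-(8 * η)) :=
            mul_le_mul_of_nonneg_right y3 (Real.rpow_nonneg hX0.le _)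
        _ = X ^ (η + -(8 * η)) := (Real.rpow_add hX0 _ _).symm
        _ ≤ X ^ (-δ') := le_pw _ _ (by linarith)
    -- the three parts
    have hdis : ∀ E E', E ≠ E' → Disjoint (SF k E (X ^ (-(16 * η))) (X ^ (16 * η)) X)
        (SF k E' (X ^ (-(16 * η))) (X ^ (16 * η)) X) := by
      intro E E' hne
      rw [Set.disjoint_left]
      intro x hx hx'
      exact hne (hx.2.1.symm.trans hx'.2.1)
    have e1 := Pool.Agent.H12.EQ.sum_split (fun x : Fin (k + 1) → ℤ => f (nrm x)) B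
      (fun x => hB _) (Tuples k ε ρ X) (hfin X hX).1 Y
      (fun E => SF k E (X ^ (-(16 * η))) (X ^ (16 * η)) X) l1 hdis
    have p1 : |X ^ (-(1 - nu k)) * (∑ᶠ x ∈ Tuples k ε ρ X, f (nrm x) -
        ∑ E ∈ Finset.Icc 1 Y, ∑ᶠ x ∈ SF k E (X ^ (-(16 * η))) (X ^ (16 * η)) X, f (nrm x))| ≤
        C * (2 ^ c + 3) * B * X ^ (-δ') := by
      rw [abs_mul, abs_of_pos hp]
      have h7 : C * ((Y : ℝ) ^ (-c) + (Y : ℝ) ^ 6 * X ^ (-(8 * η)) + X ^ (-(8 * η)) +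
          X ^ (-c)) ≤ C * ((2 ^ c + 3) * X ^ (-δ')) :=
        mul_le_mul_of_nonneg_left (by linarith) hC.le
      have h8 := l2.trans (mul_le_mul_of_nonneg_right h7 (Real.rpow_nonneg hX0.le (1 - nu k)))
      calc _ ≤ X ^ (-(1 - nu k)) * (B * (C * ((2 ^ c + 3) * X ^ (-δ')) * X ^ (1 - nu k))) :=
            mul_le_mul_of_nonneg_left (e1.trans (mul_le_mul_of_nonneg_left h8 hB0)) hp.le
        _ = C * (2 ^ c + 3) * B * X ^ (-δ') * (X ^ (-(1 - nu k)) * X ^ (1 - nu k)) := by ring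
        _ = C * (2 ^ c + 3) * B * X ^ (-δ') := by rw [hpp, mul_one]
    have p2 : |X ^ (-(1 - nu k)) * (∑ E ∈ Finset.Icc 1 Y,
          ∑ᶠ x ∈ SF k E (X ^ (-(16 * η))) (X ^ (16 * η)) X, f (nrm x)) -
        ∑ E ∈ Finset.Icc 1 Y, wt (k + 1) E * (E : ℝ) ^ (1 - nu k) *
          (∫ z in Reg k E (X ^ (-(16 * η))) (X ^ (16 * η)), f (arg E z))| ≤
        C1 * (B + L) * X ^ (-δ') := by
      have h7 : ∀ E ∈ Finset.Icc 1 Y,
          |X ^ (-(1 - nu k)) * (∑ᶠ x ∈ SF k E (X ^ (-(16 * η))) (X ^ (16 * η)) X, f (nrm x)) -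
            wt (k + 1) E * (E : ℝ) ^ (1 - nu k) *
            (∫ z in Reg k E (X ^ (-(16 * η))) (X ^ (16 * η)), f (arg E z))| ≤
          C1 * (B + L) * X ^ (33 * η * a - θ) := by
        intro E hE
        rw [Finset.mem_Icc] at hE
        have h8 := (hF E (X ^ (-(16 * η))) (X ^ (16 * η)) X B L f hE.1 hκ0 hκ1 hlam1 hX1 hB
          hLip).2
        have hEY : (E : ℝ) ≤ X ^ η := (by exact_mod_cast hE.2 : (E : ℝ) ≤ Y).trans y3
        have h9 : (E : ℝ) * (X ^ (-(16 * η)))⁻¹ * X ^ (16 * η) ≤ X ^ (33 * η) := by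
          rw [← Real.rpow_neg hX0.le, neg_neg, mul_assoc, ← Real.rpow_add hX0]
          calc (E : ℝ) * X ^ (16 * η + 16 * η) ≤ X ^ η * X ^ (16 * η + 16 * η) :=
                mul_le_mul_of_nonneg_right hEY (Real.rpow_nonneg hX0.le _)
            _ = X ^ (33 * η) := by
                rw [← Real.rpow_add hX0]
                congr 1
                ring
        have h10 : ((E : ℝ) * (X ^ (-(16 * η)))⁻¹ * X ^ (16 * η)) ^ a ≤ X ^ (33 * η * a) := by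
          refine (pow_le_pow_left₀ (by positivity) h9 a).trans (le_of_eq ?_)
          rw [← Real.rpow_natCast, ← Real.rpow_mul hX0.le]
        have h11 : X ^ (-(1 - nu k)) * X ^ (1 - nu k - θ) = X ^ (-θ) := by
          rw [← Real.rpow_add hX0]
          congr 1
          ring
        have h12 : X ^ (33 * η * a) * X ^ (-θ) = X ^ (33 * η * a - θ) := by
          rw [← Real.rpow_add hX0, sub_eq_add_neg]
        have h13 : X ^ (-(1 - nu k)) *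
            (∑ᶠ x ∈ SF k E (X ^ (-(16 * η))) (X ^ (16 * η)) X, f (nrm x)) -
            wt (k + 1) E * (E : ℝ) ^ (1 - nu k) *
            (∫ z in Reg k E (X ^ (-(16 * η))) (X ^ (16 * η)), f (arg E z)) =
            X ^ (-(1 - nu k)) *
            (∑ᶠ x ∈ SF k E (X ^ (-(16 * η))) (X ^ (16 * η)) X, f (nrm x) -
              X ^ (1 - nu k) * (wt (k + 1) E * (E : ℝ) ^ (1 - nu k) *
              (∫ z in Reg k E (X ^ (-(16 * η))) (X ^ (16 * η)), f (arg E z)))) := by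
          rw [mul_sub, ← mul_assoc (X ^ (-(1 - nu k))) (X ^ (1 - nu k)), hpp, one_mul]
        rw [h13, abs_mul, abs_of_pos hp]
        calc _ ≤ X ^ (-(1 - nu k)) * (C1 * (B + L) * X ^ (33 * η * a) * X ^ (1 - nu k - θ)) :=
              mul_le_mul_of_nonneg_left (h8.trans (mul_le_mul_of_nonneg_right
                (mul_le_mul_of_nonneg_left h10 (by positivity))
                (Real.rpow_nonneg hX0.le _))) hp.le
          _ = C1 * (B + L) * (X ^ (33 * η * a) * (X ^ (-(1 - nu k)) * X ^ (1 - nu k - θ))) := by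
              ring
          _ = C1 * (B + L) * X ^ (33 * η * a - θ) := by rw [h11, h12]
      rw [Finset.mul_sum, ← Finset.sum_sub_distrib]
      refine (Finset.abs_sum_le_sum_abs _ _).trans ((Finset.sum_le_card_nsmul _ _ _ h7).trans ?_)
      rw [Nat.card_Icc, Nat.add_sub_cancel, nsmul_eq_mul]
      have h14 : (Y : ℝ) * X ^ (33 * η * a - θ) ≤ X ^ (-δ') := by
        calc (Y : ℝ) * X ^ (33 * η * a - θ) ≤ X ^ η * X ^ (33 * η * a - θ) :=
              mul_le_mul_of_nonneg_right y3 (Real.rpow_nonneg hX0.le _)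
          _ = X ^ (η + (33 * η * a - θ)) := (Real.rpow_add hX0 _ _).symm
          _ ≤ X ^ (-δ') := le_pw _ _ (by linarith)
      calc (Y : ℝ) * (C1 * (B + L) * X ^ (33 * η * a - θ))
          = C1 * (B + L) * ((Y : ℝ) * X ^ (33 * η * a - θ)) := by ring
        _ ≤ C1 * (B + L) * X ^ (-δ') := mul_le_mul_of_nonneg_left h14 (by positivity)
    have p3 : C2 * B * ((Y : ℝ) ^ (-c2) + X ^ (-(8 * η)) + Y * X ^ (-(8 * η))) ≤
        C2 * (2 ^ c2 + 2) * B * X ^ (-δ') := by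
      calc C2 * B * ((Y : ℝ) ^ (-c2) + X ^ (-(8 * η)) + Y * X ^ (-(8 * η)))
          ≤ C2 * B * ((2 ^ c2 + 2) * X ^ (-δ')) :=
            mul_le_mul_of_nonneg_left (by linarith) (by positivity)
        _ = C2 * (2 ^ c2 + 2) * B * X ^ (-δ') := by ring
    have p4 := r1.trans p3
    have q1 : C * (2 ^ c + 3) * B * X ^ (-δ') ≤ C * (2 ^ c + 3) * (B + L) * X ^ (-δ') := by
      refine mul_le_mul_of_nonneg_right (mul_le_mul_of_nonneg_left (by linarith)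
        (by positivity)) hpd.le
    have q2 : C2 * (2 ^ c2 + 2) * B * X ^ (-δ') ≤
        C2 * (2 ^ c2 + 2) * (B + L) * X ^ (-δ') := by
      refine mul_le_mul_of_nonneg_right (mul_le_mul_of_nonneg_left (by linarith)
        (by positivity)) hpd.le
    have q3 : 0 ≤ (C + (3 * C2 + |wt (k + 1) 1| * V)) * X₀ ^ δ' * (B + L) * X ^ (-δ') := by
      have : 0 ≤ X₀ ^ δ' := Real.rpow_nonneg (by linarith) _
      positivity
    have q4 : (C * (2 ^ c + 3) + C1 + C2 * (2 ^ c2 + 2) +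
        (C + (3 * C2 + |wt (k + 1) 1| * V)) * X₀ ^ δ') * (B + L) * X ^ (-δ') =
        C * (2 ^ c + 3) * (B + L) * X ^ (-δ') + C1 * (B + L) * X ^ (-δ') +
        C2 * (2 ^ c2 + 2) * (B + L) * X ^ (-δ') +
        (C + (3 * C2 + |wt (k + 1) 1| * V)) * X₀ ^ δ' * (B + L) * X ^ (-δ') := by ring
    rw [q4]
    rw [mul_sub] at p1
    rw [abs_le] at p1 p2 p4
    rw [abs_le]
    constructor <;> linarith [p1.1, p1.2, p2.1, p2.2, p4.1, p4.2]

theorem pf_LMQ (h1 : T_FEQ) (h2 : T_LHQ) (h3 : T_RHQ) (_ : T_SEQ) (_ : T_PRD)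
    (h6 : T_VFN) : T_LMQ := by
  intro k ε hk hε hε1
  obtain ⟨ρ, δ, c, C, X₀, hρ, hδ, hc, hC, hX₀, hfin, hL⟩ := h2 k ε hk hε hε1
  obtain ⟨δ', C', e1, e2, e3⟩ := lmq_core h1 h3 h6 k hk ε ρ δ c C X₀ hδ hc hC hX₀ hfin hL
  exact ⟨ρ, δ', C', hρ, e1, e2, fun X hX => ⟨(hfin X hX).1, e3 X hX⟩⟩

end Pool.Agent.H12.EQQ
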